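import Mathlib

set_option autoImplicit false

open Finset

namespace Pool.Agent.Results.MP_d08b2e_nt.SharpNearOne

/-- `m` has a medium divisor (relative to `n`): a divisor `d` with `n < d < 2 n`. -/
def HasMediumDivisor (n m : ℕ) : Prop := ∃ d : ℕ, n < d ∧ d < 2 * n ∧ d ∣ m

/-- `N_n(x,y)`: the number of integers `m` with `x < m < x + y` having a medium divisor. -/
noncomputable def windowCount (n x y : ℕ) : ℕ :=
  Set.ncard {m : ℕ | x < m ∧ m < x + y ∧ HasMediumDivisor n m}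

/-- `y(ε,n)`: the least `y₀` such that `N_n(x,y) ≤ ε y` for all `x ≥ 0` and all `y ≥ y₀`
(and `⊤` if there is no such `y₀`). -/
noncomputable def windowLength (ε : ℝ) (n : ℕ) : ℕ∞ :=
  sInf {z : ℕ∞ | ∃ y₀ : ℕ, z = (y₀ : ℕ∞) ∧
    ∀ x y : ℕ, y₀ ≤ y → (windowCount n x y : ℝ) ≤ ε * (y : ℝ)}

open Classical in
lemma windowCount_eq (n x y : ℕ) :
    windowCount n x y = #{m ∈ Ioo x (x + y) | HasMediumDivisor n m} := by
  unfold windowCount
  rw [← Set.ncard_coe_finset]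
  congr 1
  ext m
  simp [and_assoc]

open Classical in
/-- number of integers in `(a, b]` with a medium divisor -/
noncomputable def cnt (n a b : ℕ) : ℕ := #{m ∈ Ioc a b | HasMediumDivisor n m}

lemma windowCount_eq_cnt (n x y : ℕ) (hy : 1 ≤ y) : windowCount n x y = cnt n x (x + y - 1) := by
  rw [windowCount_eq, cnt]
  congr 1
  ext m
  simp only [mem_filter, mem_Ioo, mem_Ioc]
  constructor
  · rintro ⟨h1, h2⟩; exact ⟨by omega, h2⟩
  · rintro ⟨h1, h2⟩; exact ⟨by omega, h2⟩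

/-- evens in `(a, b]` -/
lemma card_even_Ioc (a b : ℕ) (hab : a ≤ b) : 2 * #{m ∈ Ioc a b | 2 ∣ m} ≤ b - a + 1 := by
  have h1 := Nat.Ioc_filter_dvd_card_eq_div b 2
  have h2 := Nat.Ioc_filter_dvd_card_eq_div a 2
  have h3 : ({m ∈ Ioc 0 b | 2 ∣ m} : Finset ℕ) = {m ∈ Ioc 0 a | 2 ∣ m} ∪ {m ∈ Ioc a b | 2 ∣ m} := by
    ext m
    simp only [mem_filter, mem_Ioc, mem_union]
    omega
  have h4 : Disjoint ({m ∈ Ioc 0 a | 2 ∣ m} : Finset ℕ) {m ∈ Ioc a b | 2 ∣ m} := by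
    rw [Finset.disjoint_left]
    intro m hm hm'
    simp only [mem_filter, mem_Ioc] at hm hm'
    omega
  rw [h3, Finset.card_union_of_disjoint h4, h2] at h1
  omega

/-- odds in `(a, b]` -/
lemma card_odd_Ioc (a b : ℕ) (hab : a ≤ b) : 2 * #{m ∈ Ioc a b | ¬ 2 ∣ m} ≤ b - a + 1 := by
  have h1 := Nat.Ioc_filter_dvd_card_eq_div b 2
  have h2 := Nat.Ioc_filter_dvd_card_eq_div a 2
  have h3 : ({m ∈ Ioc 0 b | 2 ∣ m} : Finset ℕ) = {m ∈ Ioc 0 a | 2 ∣ m} ∪ {m ∈ Ioc a b | 2 ∣ m} := by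
    ext m
    simp only [mem_filter, mem_Ioc, mem_union]
    omega
  have h4 : Disjoint ({m ∈ Ioc 0 a | 2 ∣ m} : Finset ℕ) {m ∈ Ioc a b | 2 ∣ m} := by
    rw [Finset.disjoint_left]
    intro m hm hm'
    simp only [mem_filter, mem_Ioc] at hm hm'
    omega
  rw [h3, Finset.card_union_of_disjoint h4, h2] at h1
  have h5 := Finset.card_filter_add_card_filter_not (s := Ioc a b) (fun m => 2 ∣ m)
  rw [Nat.card_Ioc] at h5
  omega

/-- odds in `(a, b)` -/
lemma card_odd_Ioo (a b : ℕ) (hab : a < b) : 2 * #{m ∈ Ioo a b | ¬ 2 ∣ m} ≤ b - a := by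
  have h1 : (Ioo a b) = Ioc a (b - 1) := by
    ext m; simp only [mem_Ioo, mem_Ioc]; omega
  rw [h1]
  have := card_odd_Ioc a (b - 1) (by omega)
  omega

/-- odd multiples of `d` in `(a, b]` when `b - a ≤ 2 d`: at most one -/
lemma card_odd_mul_le_one (a b d : ℕ) (hd : 0 < d) (h : b - a ≤ 2 * d) :
    #{m ∈ Ioc a b | ¬ 2 ∣ m ∧ d ∣ m} ≤ 1 := by
  rw [Finset.card_le_one]
  intro m hm m' hm'
  rw [mem_filter, mem_Ioc] at hm hm'
  obtain ⟨⟨h1, h2⟩, h3, k, rfl⟩ := hm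
  obtain ⟨⟨h4, h5⟩, h6, l, rfl⟩ := hm'
  have hk : k % 2 = 1 := by
    by_contra hcon
    have : 2 ∣ k := by omega
    exact h3 (this.mul_left d)
  have hl : l % 2 = 1 := by
    by_contra hcon
    have : 2 ∣ l := by omega
    exact h6 (this.mul_left d)
  by_contra hne
  have hkl : k ≠ l := fun e => hne (by rw [e])
  rcases lt_or_gt_of_ne hkl with hlt | hlt
  · have : k + 2 ≤ l := by omega
    have h7 : d * (k + 2) ≤ d * l := Nat.mul_le_mul_left d this
    have h8 : d * (k + 2) = d * k + 2 * d := by ring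
    omega
  · have : l + 2 ≤ k := by omega
    have h7 : d * (l + 2) ≤ d * k := Nat.mul_le_mul_left d this
    have h8 : d * (l + 2) = d * l + 2 * d := by ring
    omega

/-- odd multiples of `d` in `(a, b]` when `b - a ≤ 4 d`: at most two -/
lemma card_odd_mul_le_two (a b d : ℕ) (hd : 0 < d) (h : b - a ≤ 4 * d) :
    #{m ∈ Ioc a b | ¬ 2 ∣ m ∧ d ∣ m} ≤ 2 := by
  have h1 : ({m ∈ Ioc a b | ¬ 2 ∣ m ∧ d ∣ m} : Finset ℕ) ⊆
      {m ∈ Ioc a (a + 2 * d) | ¬ 2 ∣ m ∧ d ∣ m} ∪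
      {m ∈ Ioc (a + 2 * d) (a + 4 * d) | ¬ 2 ∣ m ∧ d ∣ m} := by
    intro m hm
    rw [mem_filter, mem_Ioc] at hm
    rw [mem_union, mem_filter, mem_filter, mem_Ioc, mem_Ioc]
    by_cases hc : m ≤ a + 2 * d
    · left; exact ⟨⟨hm.1.1, hc⟩, hm.2⟩
    · right; exact ⟨by omega, hm.2⟩
  refine (Finset.card_le_card h1).trans ((Finset.card_union_le _ _).trans ?_)
  have h2 := card_odd_mul_le_one a (a + 2 * d) d hd (by omega)
  have h3 := card_odd_mul_le_one (a + 2 * d) (a + 4 * d) d hd (by omega)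
  omega

lemma cnt_le_sum (n a b : ℕ) (hab : a ≤ b) :
    cnt n a b ≤ #{m ∈ Ioc a b | 2 ∣ m} +
      ∑ d ∈ Ioo n (2 * n) with ¬ 2 ∣ d, #{m ∈ Ioc a b | ¬ 2 ∣ m ∧ d ∣ m} := by
  classical
  unfold cnt
  have h1 : ({m ∈ Ioc a b | HasMediumDivisor n m} : Finset ℕ) ⊆ {m ∈ Ioc a b | 2 ∣ m} ∪
      ({d ∈ Ioo n (2 * n) | ¬ 2 ∣ d} : Finset ℕ).biUnion
        (fun d => {m ∈ Ioc a b | ¬ 2 ∣ m ∧ d ∣ m}) := by
    intro m hm
    rw [mem_filter] at hm
    obtain ⟨hm1, d, hd1, hd2, hd3⟩ := hm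
    rw [mem_union]
    by_cases h2 : 2 ∣ m
    · left; rw [mem_filter]; exact ⟨hm1, h2⟩
    · right
      rw [mem_biUnion]
      refine ⟨d, ?_, ?_⟩
      · rw [mem_filter, mem_Ioo]
        exact ⟨⟨hd1, hd2⟩, fun h => h2 (h.trans hd3)⟩
      · rw [mem_filter]; exact ⟨hm1, h2, hd3⟩
  refine (Finset.card_le_card h1).trans ((Finset.card_union_le _ _).trans ?_)
  gcongr
  exact Finset.card_biUnion_le

/-- short windows -/
lemma cnt_le_short (n a b : ℕ) (hn : 0 < n) (hab : a ≤ b) (h : b - a ≤ 2 * n) :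
    2 * cnt n a b ≤ (b - a + 1) + n := by
  have h1 := cnt_le_sum n a b hab
  have h2 := card_even_Ioc a b hab
  have h3 : ∑ d ∈ Ioo n (2 * n) with ¬ 2 ∣ d, #{m ∈ Ioc a b | ¬ 2 ∣ m ∧ d ∣ m}
      ≤ ∑ d ∈ Ioo n (2 * n) with ¬ 2 ∣ d, 1 := by
    refine Finset.sum_le_sum fun d hd => ?_
    rw [mem_filter, mem_Ioo] at hd
    exact card_odd_mul_le_one a b d (by omega) (by omega)
  rw [Finset.sum_const, smul_eq_mul, mul_one] at h3
  have h4 := card_odd_Ioo n (2 * n) (by omega)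
  omega

/-- middle windows -/
lemma cnt_le_mid (n a b : ℕ) (hn : 0 < n) (hab : a ≤ b) (h0 : 2 * n ≤ b - a) (h : b - a ≤ 4 * n) :
    4 * cnt n a b ≤ 3 * (b - a) + 6 := by
  have h1 := cnt_le_sum n a b hab
  have h2 := card_even_Ioc a b hab
  have h3 : ∑ d ∈ Ioo n (2 * n) with ¬ 2 ∣ d, #{m ∈ Ioc a b | ¬ 2 ∣ m ∧ d ∣ m}
      ≤ ∑ d ∈ Ioo n (2 * n) with ¬ 2 ∣ d, (1 + if 2 * d < b - a then 1 else 0) := by
    refine Finset.sum_le_sum fun d hd => ?_
    rw [mem_filter, mem_Ioo] at hd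
    split_ifs with hc
    · exact card_odd_mul_le_two a b d (by omega) (by omega)
    · exact card_odd_mul_le_one a b d (by omega) (by omega)
  rw [Finset.sum_add_distrib, Finset.sum_const, smul_eq_mul, mul_one, Finset.sum_boole] at h3
  simp only [Nat.cast_id] at h3
  have h4 := card_odd_Ioo n (2 * n) (by omega)
  have h5 : #{d ∈ ({d ∈ Ioo n (2 * n) | ¬ 2 ∣ d} : Finset ℕ) | 2 * d < b - a}
      ≤ #{d ∈ Ioc n ((b - a) / 2) | ¬ 2 ∣ d} := by
    apply Finset.card_le_card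
    intro d hd
    rw [mem_filter, mem_filter, mem_Ioo] at hd
    rw [mem_filter, mem_Ioc]
    exact ⟨by omega, hd.1.2⟩
  have h6 := card_odd_Ioc n ((b - a) / 2) (by omega)
  omega

lemma cnt_split (n a c b : ℕ) (h1 : a ≤ c) (h2 : c ≤ b) : cnt n a b ≤ cnt n a c + cnt n c b := by
  classical
  unfold cnt
  have h3 : ({m ∈ Ioc a b | HasMediumDivisor n m} : Finset ℕ) ⊆
      {m ∈ Ioc a c | HasMediumDivisor n m} ∪ {m ∈ Ioc c b | HasMediumDivisor n m} := by
    intro m hm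
    rw [mem_filter, mem_Ioc] at hm
    rw [mem_union, mem_filter, mem_filter, mem_Ioc, mem_Ioc]
    by_cases hc : m ≤ c
    · left; exact ⟨⟨hm.1.1, hc⟩, hm.2⟩
    · right; exact ⟨by omega, hm.2⟩
  exact (Finset.card_le_card h3).trans (Finset.card_union_le _ _)

/-- long windows -/
lemma cnt_le_long (n : ℕ) (hn : 0 < n) : ∀ H a b : ℕ, b - a = H → a ≤ b → 2 * n ≤ H →
    (4 * n) * cnt n a b ≤ 3 * n * H + 3 * H := by
  intro H
  induction H using Nat.strong_induction_on with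
  | _ H ih =>
    intro a b hH hab h2n
    by_cases hc : H ≤ 4 * n
    · have h1 := cnt_le_mid n a b hn hab (by omega) (by omega)
      have h2 : n * (4 * cnt n a b) ≤ n * (3 * (b - a) + 6) := Nat.mul_le_mul_left n h1
      rw [hH] at h2
      have h3 : n * (3 * H + 6) = 3 * n * H + 3 * (2 * n) := by ring
      have h4 : n * (4 * cnt n a b) = (4 * n) * cnt n a b := by ring
      have h5 : 3 * (2 * n) ≤ 3 * H := by omega
      linarith
    · push Not at hc
      have h1 := cnt_le_mid n a (a + 2 * n) hn (by omega) (by omega) (by omega)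
      have h2 := ih (H - 2 * n) (by omega) (a + 2 * n) b (by omega) (by omega) (by omega)
      have h3 := cnt_split n a (a + 2 * n) b (by omega) (by omega)
      have h4 : n * (4 * cnt n a (a + 2 * n)) ≤ n * (3 * (a + 2 * n - a) + 6) :=
        Nat.mul_le_mul_left n h1
      have e1 : a + 2 * n - a = 2 * n := by omega
      rw [e1] at h4
      obtain ⟨H', rfl⟩ : ∃ H', H = H' + 2 * n := ⟨H - 2 * n, by omega⟩
      have e2 : H' + 2 * n - 2 * n = H' := by omega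
      rw [e2] at h2
      have h6 : (4 * n) * cnt n a b ≤ (4 * n) * (cnt n a (a + 2 * n) + cnt n (a + 2 * n) b) :=
        Nat.mul_le_mul_left _ h3
      nlinarith

/-- The integers `(2n)! + j`, `n < j < n + y`, show how full a window of length `y` can be. -/
lemma le_windowCount (n y : ℕ) (hn : 1 ≤ n) (hy : n ≤ y) (hy2 : y ≤ 2 * n) :
    n + y ≤ 2 * windowCount n ((2 * n).factorial + n) y + 4 := by
  classical
  rw [windowCount_eq]
  set A : Finset ℕ := (Ioo n (2 * n)).image (fun d => (2 * n).factorial + d) with hA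
  set B : Finset ℕ := (Ioo n ((n + y + 1) / 2)).image (fun d => (2 * n).factorial + 2 * d) with hB
  have hAc : #A = n - 1 := by
    rw [hA, Finset.card_image_of_injective _ (fun a b h => by simpa using h), Nat.card_Ioo]
    omega
  have hBc : #B = (n + y + 1) / 2 - n - 1 := by
    rw [hB, Finset.card_image_of_injective _ (fun a b h => by simpa using h), Nat.card_Ioo]
  have hdisj : Disjoint A B := by
    rw [Finset.disjoint_left]
    intro m hm hm'
    rw [hA, mem_image] at hm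
    rw [hB, mem_image] at hm'
    obtain ⟨d, hd, rfl⟩ := hm
    obtain ⟨e, he, he'⟩ := hm'
    rw [mem_Ioo] at hd he
    omega
  have hsub : A ∪ B ⊆ {m ∈ Ioo ((2 * n).factorial + n) ((2 * n).factorial + n + y) |
      HasMediumDivisor n m} := by
    intro m hm
    rw [mem_union] at hm
    rcases hm with hm | hm
    · rw [hA, mem_image] at hm
      obtain ⟨d, hd, rfl⟩ := hm
      rw [mem_Ioo] at hd
      rw [mem_filter, mem_Ioo]
      refine ⟨⟨by omega, by omega⟩, d, hd.1, hd.2, ?_⟩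
      exact (Nat.dvd_add_right (Nat.dvd_factorial (by omega) (by omega))).2 dvd_rfl
    · rw [hB, mem_image] at hm
      obtain ⟨d, hd, rfl⟩ := hm
      rw [mem_Ioo] at hd
      rw [mem_filter, mem_Ioo]
      refine ⟨⟨by omega, by omega⟩, d, hd.1, by omega, ?_⟩
      exact (Nat.dvd_add_right (Nat.dvd_factorial (by omega) (by omega))).2 (Dvd.intro_left 2 rfl)
  have h1 := Finset.card_le_card hsub
  rw [Finset.card_union_of_disjoint hdisj, hAc, hBc] at h1
  omega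

/-- **Sharp window length for `3/4 < ε < 1`.**  For `3/4 < ε < 1` and all large `n` the window
length `y(ε,n)` equals `n/(2ε-1)` up to a bounded error. -/
theorem result (ε : ℝ) (h34 : 3 / 4 < ε) (h1 : ε < 1) :
    ∃ N : ℕ, ∀ n : ℕ, N ≤ n →
      ∃ Y : ℕ, windowLength ε n = (Y : ℕ∞) ∧
        (n : ℝ) / (2 * ε - 1) - 8 ≤ (Y : ℝ) ∧ (Y : ℝ) ≤ (n : ℝ) / (2 * ε - 1) + 1 := by
  classical
  have hε : 0 < ε := by linarith
  have h2ε : 0 < 2 * ε - 1 := by linarith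
  have h2ε' : 1 / 2 < 2 * ε - 1 := by linarith
  obtain ⟨N₁, hN₁⟩ := exists_nat_gt (3 / (4 * (ε - 3 / 4)))
  obtain ⟨N₂, hN₂⟩ := exists_nat_gt (4 / (2 - 2 * ε))
  refine ⟨max (max N₁ N₂) 10, fun n hn => ?_⟩
  have hn1 : N₁ ≤ n := (le_max_left _ _).trans ((le_max_left _ _).trans hn)
  have hn2 : N₂ ≤ n := (le_max_right _ _).trans ((le_max_left _ _).trans hn)
  have hn10 : 10 ≤ n := (le_max_right _ _).trans hn
  have hn1R : 3 / (4 * (ε - 3 / 4)) < n := lt_of_lt_of_le hN₁ (by exact_mod_cast hn1)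
  have hn2R : 4 / (2 - 2 * ε) < n := lt_of_lt_of_le hN₂ (by exact_mod_cast hn2)
  rw [div_lt_iff₀ (by linarith)] at hn1R hn2R
  have hn10R : (10 : ℝ) ≤ n := by exact_mod_cast hn10
  have hn0 : 0 < n := by omega
  have hnR : (0 : ℝ) < n := by linarith
  set S : Set ℕ∞ := {z : ℕ∞ | ∃ y₀ : ℕ, z = (y₀ : ℕ∞) ∧
    ∀ x y : ℕ, y₀ ≤ y → (windowCount n x y : ℝ) ≤ ε * (y : ℝ)} with hS
  -- upper bound
  have hupper : ∀ x y : ℕ, ⌈(n : ℝ) / (2 * ε - 1)⌉₊ ≤ y → (windowCount n x y : ℝ) ≤ ε * (y : ℝ) := by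
    intro x y hy
    have hy1 : (n : ℝ) / (2 * ε - 1) ≤ y := (Nat.le_ceil _).trans (by exact_mod_cast hy)
    rw [div_le_iff₀ h2ε] at hy1
    have hy0 : 1 ≤ y := by
      rcases Nat.eq_zero_or_pos y with h | h
      · subst h; simp at hy1; linarith
      · exact h
    rw [windowCount_eq_cnt n x y hy0]
    by_cases hc : y - 1 ≤ 2 * n
    · have h3 := cnt_le_short n x (x + y - 1) hn0 (by omega) (by omega)
      have h4 : 2 * cnt n x (x + y - 1) ≤ y + n := by omega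
      have h5 : (2 : ℝ) * (cnt n x (x + y - 1) : ℝ) ≤ y + n := by exact_mod_cast h4
      nlinarith
    · push Not at hc
      have h3 := cnt_le_long n hn0 (y - 1) x (x + y - 1) (by omega) (by omega) (by omega)
      have h4 : ((4 : ℝ) * n) * (cnt n x (x + y - 1) : ℝ) ≤ 3 * n * ((y - 1 : ℕ) : ℝ)
          + 3 * ((y - 1 : ℕ) : ℝ) := by exact_mod_cast h3
      rw [Nat.cast_sub hy0] at h4
      push_cast at h4
      have hyR : (1 : ℝ) ≤ y := by exact_mod_cast hy0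
      have h5 : 3 * (n : ℝ) * (y - 1) + 3 * (y - 1) ≤ (4 * n) * (ε * y) := by
        have h6 : (3 : ℝ) * n + 3 ≤ 4 * n * ε := by nlinarith
        have h7 : (3 * (n : ℝ) + 3) * (y - 1) ≤ (4 * n * ε) * (y - 1) :=
          mul_le_mul_of_nonneg_right h6 (by linarith)
        have h8 : (4 * n * ε) * ((y : ℝ) - 1) ≤ (4 * n * ε) * y :=
          mul_le_mul_of_nonneg_left (by linarith) (by positivity)
        nlinarith
      have h6 : (4 * (n : ℝ)) * (cnt n x (x + y - 1) : ℝ) ≤ (4 * n) * (ε * y) := h4.trans h5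
      exact le_of_mul_le_mul_left h6 (by positivity)
  have hmem : ((⌈(n : ℝ) / (2 * ε - 1)⌉₊ : ℕ) : ℕ∞) ∈ S := ⟨_, rfl, hupper⟩
  have hne : S.Nonempty := ⟨_, hmem⟩
  obtain ⟨Y, hY, hYprop⟩ : sInf S ∈ S := csInf_mem hne
  refine ⟨Y, hY, ?_, ?_⟩
  · -- lower bound
    by_contra hcon
    push Not at hcon
    -- choose the window length `y = max Y n`
    have hq : (n : ℝ) / (2 * ε - 1) ≤ 2 * n := by
      rw [div_le_iff₀ h2ε]; nlinarith
    have hY2 : (Y : ℝ) ≤ 2 * n := by linarith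
    have hY2' : Y ≤ 2 * n := by exact_mod_cast hY2
    have h3 := hYprop ((2 * n).factorial + n) (max Y n) (le_max_left _ _)
    have h4 := le_windowCount n (max Y n) (by omega) (le_max_right _ _) (by omega)
    have h5 : (n : ℝ) + (max Y n : ℕ) ≤ 2 * (windowCount n ((2 * n).factorial + n) (max Y n) : ℝ) + 4 := by
      exact_mod_cast h4
    have h6 : (n : ℝ) - 4 ≤ (2 * ε - 1) * ((max Y n : ℕ) : ℝ) := by nlinarith
    rcases le_total Y n with hle | hle
    · rw [max_eq_right hle] at h6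
      nlinarith
    · rw [max_eq_left hle] at h6
      have h7 : (2 * ε - 1) * (Y : ℝ) < (2 * ε - 1) * ((n : ℝ) / (2 * ε - 1) - 8) :=
        mul_lt_mul_of_pos_left hcon h2ε
      have h8 : (2 * ε - 1) * ((n : ℝ) / (2 * ε - 1) - 8) = n - 8 * (2 * ε - 1) := by
        field_simp
      nlinarith
  · have h3 : sInf S ≤ ((⌈(n : ℝ) / (2 * ε - 1)⌉₊ : ℕ) : ℕ∞) := sInf_le hmem
    rw [hY] at h3
    have h4 : Y ≤ ⌈(n : ℝ) / (2 * ε - 1)⌉₊ := by exact_mod_cast h3
    have h5 : ((⌈(n : ℝ) / (2 * ε - 1)⌉₊ : ℕ) : ℝ) < (n : ℝ) / (2 * ε - 1) + 1 :=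
      Nat.ceil_lt_add_one (by positivity)
    have h6 : (Y : ℝ) ≤ ((⌈(n : ℝ) / (2 * ε - 1)⌉₊ : ℕ) : ℝ) := by exact_mod_cast h4
    linarith

end Pool.Agent.Results.MP_d08b2e_nt.SharpNearOne
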