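import Pool.Agent.MWL.Asm3
import Pool.Agent.MWL.Lin

set_option autoImplicit false

namespace Pool.Agent.Results.MP_d08b2e_nt.UniformWindow

open Pool.MWL

/-- The size of the window length `y(ε,n)` of Erdos. With `δ = delta = 1 - (1 + log log 2)/log 2`:

* for every `η > 0` there are `ε₀ > 0` and `N` such that for all `n ≥ N` and all real `ε`:
  if `(log n)^(-δ+η) ≤ ε ≤ ε₀`, then `y(ε,n)` is finite and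
  `n exp(ε^(-1/δ+η)) ≤ y(ε,n) ≤ n exp(ε^(-1/δ-η))`; if `ε ≤ (log n)^(-δ-η)`, then `y(ε,n) = ∞`;
* for every fixed `0 < ε < 1` and all large `n`: `(n-1)/ε ≤ y(ε,n) ≤ C(ε) n`;
* `y(ε,n) = 0` for `ε ≥ 1`. -/
theorem result :
    (∀ η : ℝ, 0 < η → ∃ ε₀ : ℝ, 0 < ε₀ ∧ ∃ N : ℕ, ∀ n : ℕ, N ≤ n → ∀ ε : ℝ,
      ((Real.log n ^ (-delta + η) ≤ ε → ε ≤ ε₀ →
        ∃ Y : ℕ, windowLength ε n = (Y : ℕ∞) ∧
          (n : ℝ) * Real.exp (ε ^ (-(1 / delta) + η)) ≤ (Y : ℝ) ∧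
          (Y : ℝ) ≤ (n : ℝ) * Real.exp (ε ^ (-(1 / delta) - η))) ∧
      (ε ≤ Real.log n ^ (-delta - η) → windowLength ε n = ⊤))) ∧
    (∀ ε : ℝ, 0 < ε → ε < 1 →
      ∃ C N : ℕ, ∀ n : ℕ, N ≤ n →
        ∃ Y : ℕ, windowLength ε n = (Y : ℕ∞) ∧ ((n : ℝ) - 1) / ε ≤ (Y : ℝ) ∧ (Y : ℝ) ≤ C * n) ∧
    (∀ ε : ℝ, 1 ≤ ε → ∀ n : ℕ, windowLength ε n = 0) :=
  ⟨fun η hη => uniform η hη, Lin.linear⟩

end Pool.Agent.Results.MP_d08b2e_nt.UniformWindow
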